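import Pool.Agent.R503.EU.Ptw

/-!
# One-sided moments of the azimuthal vorticity and the blow-up of Euler solutions

The maximum of the vorticity grows at most at the stretching rate at any point `x` where it is
attained. We show that only a very small part of the vorticity near `x` can produce stretching: in
cylindrical coordinates `(ρ, φ, h)` around the line through `x` in the direction of `ω(x)`, only the
azimuthal component `ω_φ`, only through the averages of `h ρ ω_φ` over balls around `x`, and only if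
these averages are *positive*. In formulas, with `w = ω(x)`, let

`moment(r) = ∫ (z · w) (1 - |z|²)₊² ω(x + r z) · (z × w) dz = - |w|² ∫ (1 - |z|²)₊² h ρ ω_φ dz`.

Let a `C²` periodic solution of the Euler equations with kinetic energy `E` become singular at the
time `T`, and assume that at almost every time `t` near `T`, at ONE point `x` of maximal vorticity,
`moment(r) ≥ - (r / L(t)) ^ β |ω(x)|³` for the radii `r ≤ 1` with `|ω(x)| r ^ (β + 5/2) ≤ √E L ^ β`
(these radii tend to zero when the maximum of the vorticity tends to infinity). Then the maximum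
`M(s)` of the vorticity satisfies, with `γ = 5 / (2 β + 5)`,

`(M(s)² + E) ^ (-γ / 2) ≤ C E ^ (β / (2 β + 5)) ∫_s^T L(t) ^ (-β γ) dt`,

and for `L(t) = K (T - t) ^ (2 / 5)` this excludes singularities `M(t) ≤ C₁ / (T - t)` with
`C E ^ (β / 5) C₁ < K ^ β`. There is no condition for the radial and the axial components of the
vorticity, nor for the symmetric part of the azimuthal component in `h`; and one-sided bounds are
enough.

Library: helper786 (`W786`: formula for the averages of the stretching rate, maximum principle),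
helper462 (`R462`: energy bound of the averages, superlinear growth, two-sided condition for the
direction of the vorticity), helper708 (`H708R2`).
-/

set_option autoImplicit false

open MeasureTheory Set Filter
open scoped Topology

namespace Pool.Agent.Results.MP_b0497c_an.AzimuthalVorticity

open Pool.Agent.H708R2.EulerSign Pool.Agent.H708R2.EulerTypeI Pool.Agent.W786.Dir
  Pool.Agent.W786.Max Pool.Agent.R503.EU
open Pool.Agent.R462.EU (gam gam_pos)

/-- The kinetic energy (without the factor `1 / 2`) on `[-π, π]³` of the field `v` relative to the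
constant velocity `c`. -/
noncomputable def energy (v : V → V) (c : V) : ℝ :=
  ∫ x in Icc (fun _ : Fin 3 => -Real.pi) (fun _ => Real.pi), (v x - c) ⬝ᵥ (v x - c)

/-- The condition of the theorem is the one described above. -/
theorem swirl_iff (v : V → V) (x : V) (L β E : ℝ) : Swirl v x L β E ↔
    ∀ r, 0 < r → r ≤ 1 → nrm (vort v x) * r ^ (β + 5 / 2) ≤ Real.sqrt E * L ^ β →
      -((r / L) ^ β * nrm (vort v x) ^ 3) ≤
        ∫ z, (z ⬝ᵥ vort v x) * (max (1 - z ⬝ᵥ z) 0) ^ 2
          * (vort v (x + r • z) ⬝ᵥ cross z (vort v x)) :=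
  Iff.rfl

/-- For every `β > 0` there is a constant `C > 0` with the following properties, for all `C²`
periodic solutions `(u, p)` of the Euler equations on `[0, T)` and all `E > 0` such that the energy of
`u(0)` relative to some constant velocity is at most `E`. Let `γ = gam β = 5 / (2 β + 5)`.
(1) If `0 < L(t) ≤ 1` on `(s, T)`, `L ^ (-β γ)` is integrable there, and for almost every `t` in
`(s, T)` there is a point of maximal vorticity with the condition `Swirl` for `L(t)`, and if the
Beale-Kato-Majda integral is infinite, then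
`1 ≤ C E ^ ((1 - γ) / 2) (M ^ 2 + E) ^ (γ / 2) ∫_s^T L ^ (-β γ)` with the maximum `M` of the vorticity
at the time `s`.
(2) If this holds near `T` with `L(t) = K (T - t) ^ (2 / 5)`, and the Beale-Kato-Majda integral is
infinite, then `K ^ β ≤ C E ^ (β / 5) (T - s) M(s)` for all `s` near `T`.
(3) If it holds near `T` with `L(t) = K (T - t) ^ (2 / 5)`, the vorticity is at most `C₁ / (T - t)`
near `T`, and `C E ^ (β / 5) C₁ < K ^ β`, then the Beale-Kato-Majda integral is finite.
(4) `Swirl` follows from a one-sided pointwise condition for the azimuthal component of the sum of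
the vorticities at opposite points. -/
theorem result (β : ℝ) (hβ : 0 < β) : (∃ C : ℝ, 0 < C ∧
    (∀ (T E s : ℝ) (u : ℝ → V → V) (p : ℝ → V → ℝ) (c : V) (L : ℝ → ℝ),
      IsC2Solution T u p → s ∈ Ico 0 T → 0 < E → energy (u 0) c ≤ E →
      (∀ t ∈ Ioo s T, 0 < L t ∧ L t ≤ 1) →
      IntegrableOn (fun t => L t ^ (-(β * gam β))) (Ioo s T) →
      (∀ᵐ t, t ∈ Ioo s T → ∃ x, IsMaxPt u t x ∧ Swirl (u t) x (L t) β E) →
      ¬ BKMFinite T u → ∀ x, IsMaxPt u s x →
      1 ≤ C * E ^ ((1 - gam β) / 2) * (nrm (vort (u s) x) ^ 2 + E) ^ (gam β / 2)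
        * ∫ t in Ioo s T, L t ^ (-(β * gam β))) ∧
    (∀ (T E K : ℝ) (u : ℝ → V → V) (p : ℝ → V → ℝ) (c : V),
      0 < T → IsC2Solution T u p → 0 < E → 0 < K → energy (u 0) c ≤ E →
      (∃ t₀ < T, ∀ᵐ t, t ∈ Ioo t₀ T →
        ∃ x, IsMaxPt u t x ∧ Swirl (u t) x (K * (T - t) ^ (2 / 5 : ℝ)) β E) →
      ¬ BKMFinite T u →
      ∀ᶠ s in 𝓝[<] T, ∀ x, IsMaxPt u s x →
        K ^ β ≤ C * E ^ (β / 5) * ((T - s) * nrm (vort (u s) x))) ∧
    (∀ (T E K C₁ : ℝ) (u : ℝ → V → V) (p : ℝ → V → ℝ) (c : V),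
      0 < T → IsC2Solution T u p → 0 < E → 0 < K → energy (u 0) c ≤ E →
      (∃ t₀ < T, ∀ᵐ t, t ∈ Ioo t₀ T →
        ∃ x, IsMaxPt u t x ∧ Swirl (u t) x (K * (T - t) ^ (2 / 5 : ℝ)) β E) →
      (∀ᶠ t in 𝓝[<] T, ∀ x, (T - t) * nrm (vort (u t) x) ≤ C₁) →
      C * E ^ (β / 5) * C₁ < K ^ β → BKMFinite T u)) ∧
    (∀ (v : V → V) (x : V) (L E : ℝ), ContDiff ℝ 2 v → 0 < L →
      (∀ z, z ⬝ᵥ z ≤ 1 → -((nrm z / L) ^ β * nrm z ^ 2 * nrm (vort v x) ^ 3 / 4) ≤
        (z ⬝ᵥ vort v x) * ((vort v (x + z) + vort v (x - z)) ⬝ᵥ cross z (vort v x))) →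
      Swirl v x L β E) := by
  refine ⟨?_, fun v x L E hv hL h => swirl_of_pointwise hv hL hβ h⟩
  have hg := gam_pos hβ
  have hK0 := K0_pos hβ
  have hK1 : 0 < K1 β := by unfold K1; positivity
  have hC : 0 < max (gam β * K0 β) (K1 β) := lt_max_of_lt_right hK1
  have part2 : ∀ (T E K : ℝ) (u : ℝ → V → V) (p : ℝ → V → ℝ) (c : V),
      0 < T → IsC2Solution T u p → 0 < E → 0 < K → energy (u 0) c ≤ E →
      (∃ t₀ < T, ∀ᵐ t, t ∈ Ioo t₀ T →
        ∃ x, IsMaxPt u t x ∧ Swirl (u t) x (K * (T - t) ^ (2 / 5 : ℝ)) β E) →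
      ¬ BKMFinite T u →
      ∀ᶠ s in 𝓝[<] T, ∀ x, IsMaxPt u s x →
        K ^ β ≤ max (gam β * K0 β) (K1 β) * E ^ (β / 5) * ((T - s) * nrm (vort (u s) x)) := by
    intro T E K u p c hT h hE hK hE0 hal hsing
    filter_upwards [critical β hβ T E K u p c hT h hE hK hE0 hal hsing, self_mem_nhdsWithin]
      with s hs hsT x hx
    refine (hs x hx).trans ?_
    have h1 : 0 < E ^ (β / 5) := Real.rpow_pos_of_pos hE _
    have h2 : 0 ≤ T - s := sub_nonneg.2 (le_of_lt hsT)
    have h3 := nrm_nonneg (vort (u s) x)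
    have h4 : K1 β ≤ max (gam β * K0 β) (K1 β) := le_max_right _ _
    gcongr
  refine ⟨max (gam β * K0 β) (K1 β), hC, ?_, part2, ?_⟩
  · intro T E s u p c L h hs hE hE0 hL hi hal hsing x hx
    refine (lower β hβ T E s u p c L h hs hE hE0 hL hi hal hsing x hx).trans ?_
    have h1 : 0 < E ^ ((1 - gam β) / 2) := Real.rpow_pos_of_pos hE _
    have h2 : 0 < (nrm (vort (u s) x) ^ 2 + E) ^ (gam β / 2) :=
      Real.rpow_pos_of_pos (by positivity) _
    have h3 : 0 ≤ ∫ t in Ioo s T, L t ^ (-(β * gam β)) :=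
      setIntegral_nonneg measurableSet_Ioo fun t ht => (Real.rpow_pos_of_pos (hL t ht).1 _).le
    have h4 : gam β * K0 β ≤ max (gam β * K0 β) (K1 β) := le_max_left _ _
    gcongr
  · intro T E K C₁ u p c hT h hE hK hE0 hal hI hlt
    by_contra hsing
    have h1 := part2 T E K u p c hT h hE hK hE0 hal hsing
    have h2 : ∀ᶠ s in 𝓝[<] T, s ∈ Ico 0 T := Ico_mem_nhdsLT hT
    obtain ⟨s, hs1, hs2, hs3⟩ := (h1.and (hI.and h2)).exists
    obtain ⟨x, hx⟩ := exists_isMaxPt h.sol hs3
    have h3 := hs1 x hx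
    have h4 := hs2 x
    have h5 : 0 < E ^ (β / 5) := Real.rpow_pos_of_pos hE _
    have h6 : max (gam β * K0 β) (K1 β) * E ^ (β / 5) * ((T - s) * nrm (vort (u s) x))
        ≤ max (gam β * K0 β) (K1 β) * E ^ (β / 5) * C₁ :=
      mul_le_mul_of_nonneg_left h4 (by positivity)
    linarith

end Pool.Agent.Results.MP_b0497c_an.AzimuthalVorticity
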