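import Pool.Agent.R739.ET.Main

/-!
# Euler on `𝕋³`: a finite number of Fourier modes of the initial velocity, the energy and the
helicity together cannot decide blow-up

Let `u₀ ∈ L²(𝕋³)` be divergence-free, `K` a number and `s, ε > 0`. There is `E₀` such that for
every prescribed energy `E ≥ E₀` and every prescribed real number `H` (of any size and sign) there
is a smooth velocity `v` with `∫ |v|² = E` and with the helicity `∫ v · curl v = H`, with the same
Fourier coefficients as `u₀` at all frequencies `l` with `|l i| ≤ K`, and `ε`-close to `u₀` in
`H^{-s}`, whose Euler solution is smooth for all times; it is even steady. The energy and the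
helicity are the known conserved integrals of the Euler equations (besides the mean velocity, which
is a Fourier mode).

The starting result `FiniteModes` has the same conclusion without the energy and the helicity. The
flows constructed there are superpositions of straight parallel flows in disjoint pipes. Their
helicity density vanishes identically, and the energy is what comes out. Here one pipe is left
free and filled with a fine periodic array of circular vortices with axial velocity
`(α A(r²) y₂, - α A(r²) y₁, β F(r²))`, where `F` is the vorticity of the swirl, which have
the pressure of the centrifugal force; all their Fourier coefficients of low frequency vanish, since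
the mean is zero and the periods are `2π / N`. Energy and helicity of this array are
`α² e₁ + β² e₂` and `2 N α β e₂` with `e₁, e₂ > 0` independent of `N`, so that both can be
prescribed if `N` is large.
-/

open MeasureTheory Set Pool.Agent.H708R2.EulerSign Pool.Agent.H708R2.EulerModes
open scoped ContDiff

set_option autoImplicit false

namespace Pool.Agent.Results.MP_b0497c_an.EnergyHelicityModes

open Pool.Agent.R739.ET (energy helicity curl)

/-- Let `u₀` be a `2π`-periodic square-integrable vector field on `ℝ³` whose divergence vanishes in
the sense of distributions (for instance an element of `H^m`). For every `K` and all `s, ε > 0`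
there is `E₀` such that for all `E ≥ E₀` and all real `H` there are `C^∞` functions `v`, `p` such
that

* `(v, p)`, independent of time, is a classical solution of the Euler equations on `𝕋³` for all
  times;
* `v` and `u₀` have the same Fourier coefficients at all frequencies `l` with `|l i| ≤ K`;
* the distance of `v` and `u₀` in `H^{-s}` is at most `ε`;
* `∫ |v|² = E` and `∫ v · curl v = H`;
* every classical solution on a time interval `[0, T)` which is equal to `v` at one time is equal
  to `v` at all times. -/
theorem result (u₀ : V → V) (hper : Periodic3 u₀) (hL2 : MemLp u₀ 2 (volume.restrict cube))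
    (hdiv : WeakDivFree u₀) (K : ℕ) (s ε : ℝ) (hs : 0 < s) (hε : 0 < ε) :
    ∃ E₀ : ℝ, ∀ E : ℝ, E₀ ≤ E → ∀ H : ℝ, ∃ (v : V → V) (p : V → ℝ),
      ContDiff ℝ ∞ v ∧ ContDiff ℝ ∞ p ∧ IsClassicalSolution univ (fun _ => v) (fun _ => p) ∧
      SameModes K v u₀ ∧ HNegClose s ε v u₀ ∧ energy v = E ∧ helicity v = H ∧
      (∀ (T : ℝ) (w : ℝ → V → V) (q : ℝ → V → ℝ), IsClassicalSolution (Ico 0 T) w q →
        ∀ t₀ ∈ Ico 0 T, w t₀ = v → ∀ t ∈ Ico 0 T, w t = v) :=
  Pool.Agent.R739.ET.main_steady u₀ hper hL2 hdiv K s ε hs hε

end Pool.Agent.Results.MP_b0497c_an.EnergyHelicityModes
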