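import Pool.Agent.R145.GG.Weight
import Pool.Agent.R145.GG.Ex

/-!
# The exact rate of growth of the velocity gradient before a singularity of the Euler equations

Let `(u, p)` be a `C²` periodic solution of the Euler equations on `[0, T)` which becomes singular at
the time `T`. Along a particle path `(∇u)' = -(∇u)² - D²p`. We consider arbitrary gauges
`sup_{N ∈ K} N : ∇u` of the velocity gradient, `K` a bounded set of matrices: their maximum over space
grows at most at the rate given by `-N : ((∇u)² + D²p)` at any *one* point `x` and `N ∈ K` where it is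
attained.

For the norms `q^{1/2}`, `q = |S|² + w |ω|² / 2` (`w = 1`: the norm `|∇u|`), the quadratic term is at
most `θ_w q^{3/2}` with the best constant `θ_w = 1 / √6` for `1/3 ≤ w ≤ 1`, and only the deviatoric
part of the pressure Hessian enters, through the number `S : D²p` at one point where `q` is maximal.
If `-S : D²p ≤ 0` at one such point for almost every time near `T` then

`max |∇u(s)| ≥ √6 / (T - s)` for all `s < T` near `T`,

and the constant `√6` cannot be increased: it is approached by solutions which are linear in `x`.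

The starting result `CompressionRate` is the case of the gauges `max_e (∓ e · S e)`.

* `Pool.Agent.R145.GG.Basic`: gauges; comparison with solutions of Riccati inequalities.
* `Pool.Agent.R145.GG.{Alg, Weight}`: the norms `q^{1/2}` and their dual norms.
* `Pool.Agent.R145.GG.Ex`: the linear flows.
-/

set_option autoImplicit false

open MeasureTheory Set

namespace Pool.Agent.Results.MP_b0497c_an.GradientGauges

open Pool.Agent.H708R2.EulerSign Pool.Agent.H708R2.EulerTypeI Pool.Agent.R145.GG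

/-- Let `(u, p)` be a `C²` periodic solution of the Euler equations on `[0, T)` with infinite
Beale-Kato-Majda integral, `0 < s < T`, `θ > 0`, `c ≥ 0` and `4 θ c < 1`.
(1) Let `K` be a nonempty bounded set of matrices whose gauge controls the stretching with the
constant `k`, and `k (1 - √(1 - 4 θ c)) < 2 θ`. If `-N : ((∇u)² + D²p) ≤ θ (N : ∇u)² + c / (T - t)²`
at one point `x` and `N ∈ K` where `N : ∇u` is maximal, for almost every `t ∈ (s, T)`, then
`sup_{x, N ∈ K} N : ∇u(s, x)` is at least `(1 + √(1 - 4 θ c)) / (2 θ (T - s))`.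
(2) The same for the norm `q^{1/2}`, `q = |S|² + w |ω|² / 2`, under the condition
`-S : D²p ≤ (θ - θ_w) q^{3/2} + c / (T - t)² q^{1/2}` at one point where `q` is maximal, for almost
every `t ∈ (s, T)`; here `1 - √(1 - 4 θ c) < √6 θ`, which holds automatically if `θ ≥ 1 / √6`.
(3) For `1/3 ≤ w ≤ 1` the constant `√6` (the case `θ = θ_w = 1 / √6`, `c = 0` of (2)) is sharp for
non-periodic solutions which are linear in `x`. -/
theorem result :
    (∀ (K : Set (Matrix (Fin 3) (Fin 3) ℝ)) (B k θ c T s : ℝ) (u : ℝ → V → V) (p : ℝ → V → ℝ),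
      K.Nonempty → (∀ N ∈ K, ∀ i j, |N i j| ≤ B) → 0 ≤ k → Controls K k →
      0 < θ → 0 ≤ c → 4 * θ * c < 1 → k * (1 - Real.sqrt (1 - 4 * θ * c)) < 2 * θ →
      IsC2Solution T u p → s ∈ Ioo 0 T → ¬ BKMFinite T u →
      (∀ᵐ t, t ∈ Ioo s T → Cond K θ (c / (T - t) ^ 2) (u t) (p t)) →
      ∀ m < (1 + Real.sqrt (1 - 4 * θ * c)) / (2 * θ * (T - s)),
        ∃ x, ∃ N ∈ K, m < pair N (grad (u s) x)) ∧
    (∀ (w θ c T s : ℝ) (u : ℝ → V → V) (p : ℝ → V → ℝ),
      0 < w → 0 < θ → 0 ≤ c → 4 * θ * c < 1 →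
      1 - Real.sqrt (1 - 4 * θ * c) < Real.sqrt 6 * θ →
      IsC2Solution T u p → s ∈ Ioo 0 T → ¬ BKMFinite T u →
      (∀ᵐ t, t ∈ Ioo s T → CondW w θ (c / (T - t) ^ 2) (u t) (p t)) →
      ∃ x, (1 + Real.sqrt (1 - 4 * θ * c)) / (2 * θ * (T - s))
        ≤ Real.sqrt (dens w (u s) x)) ∧
    (∀ (w ε T : ℝ), 1 / 3 ≤ w → w ≤ 1 → 0 < T → 0 < ε →
      ∃ (u : ℝ → V → V) (p : ℝ → V → ℝ), IsSpaceSolution T u p ∧
        (∀ t, ∃ A : Matrix (Fin 3) (Fin 3) ℝ, ∀ x, u t x = A.mulVec x) ∧
        (∀ t ∈ Ico 0 T, CondW w (1 / Real.sqrt 6) (ε / (T - t) ^ 2) (u t) (p t)) ∧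
        (∀ t ∈ Ico 0 T, ∀ x, Real.sqrt (dens w (u t) x) ≤ (Real.sqrt 6 + ε) / (T - t)) ∧
        ¬ BKMFinite T u) := by
  refine ⟨?_, ?_, ?_⟩
  · intro K B k θ c T s u p hne hB hk hctl hθ hc h4 hlt h hs hsing hcond m hm
    have hB0 : 0 ≤ B := by
      obtain ⟨N, hN⟩ := hne
      exact (abs_nonneg _).trans (hB N hN 0 0)
    by_contra hcon
    push Not at hcon
    exact hsing (rateK hne hB hB0 hk hctl hθ hc h4 hlt h hs hcond hm hcon)
  · intro w θ c T s u p hw hθ hc h4 hlt h hs hsing hcond
    exact rateW hw hθ hc h4 hlt h hs hcond hsing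
  · intro w ε T hw hw1 hT hε
    exact sharpW hw hw1 hT hε

end Pool.Agent.Results.MP_b0497c_an.GradientGauges
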