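import Pool.Agent.R739.ET.Main

/-!
# Euler on `𝕋³`: no finite number of Fourier modes, energy and helicity of the initial velocity can
exclude that the vorticity grows without bound

Let `u₀ ∈ L²(𝕋³)` be divergence-free, `K` a number and `s, ε > 0`. There is `E₀` such that for
every energy `E ≥ E₀`, every helicity `H` and every rate `Λ` there is a smooth solution of the Euler
equations for all times `t ∈ ℝ` whose initial velocity has the same Fourier coefficients as `u₀` at
all frequencies `l` with `|l i| ≤ K`, is `ε`-close to `u₀` in `H^{-s}`, has the energy `E` and the
helicity `H`, and whose vorticity `ω(t)` satisfies `sup |ω(t)| ≥ Λ |t|` for all `t`.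

So a bound of the vorticity for all times, uniform in time, fails for a set of smooth initial
velocities which is dense in every negative Sobolev norm and meets every finite set of conditions
on the Fourier modes and the conserved integrals, although there is no singularity; and the growth
is as fast as one likes for a fixed energy. (By `EnergyHelicityModes` the same conditions are
satisfied by steady solutions.)

The solutions are superpositions of straight parallel flows in disjoint pipes and of a fine periodic
array of circular vortices in one of the pipes, the axial velocity of which is not axisymmetric. It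
is transported by the swirl and its gradient grows linearly. The pressure is that of the
centrifugal force and does not depend on time.
-/

open MeasureTheory Set Pool.Agent.H708R2.EulerSign Pool.Agent.H708R2.EulerModes
open scoped ContDiff

set_option autoImplicit false

namespace Pool.Agent.Results.MP_b0497c_an.VorticityGrowthModes

open Pool.Agent.R739.ET (energy helicity curl)

/-- Let `u₀` be a `2π`-periodic square-integrable vector field on `ℝ³` whose divergence vanishes in
the sense of distributions (for instance an element of `H^m`). For every `K` and all `s, ε > 0`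
there is `E₀` such that for all `E ≥ E₀` and all real `H`, `Λ` there are `u(t, x)` and `p(x)` of
class `C^∞` such that

* `(u, p)` is a classical solution of the Euler equations on `𝕋³` for all times `t ∈ ℝ`;
* `u(0)` and `u₀` have the same Fourier coefficients at all frequencies `l` with `|l i| ≤ K`;
* the distance of `u(0)` and `u₀` in `H^{-s}` is at most `ε`;
* `∫ |u(0)|² = E` and `∫ u(0) · curl u(0) = H`;
* for all `t` the maximum of the vorticity `curl u(t)` is at least `Λ |t|`;
* every classical solution on a time interval `[0, T)` which is equal to `u` at one time is equal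
  to `u` at all times. -/
theorem result (u₀ : V → V) (hper : Periodic3 u₀) (hL2 : MemLp u₀ 2 (volume.restrict cube))
    (hdiv : WeakDivFree u₀) (K : ℕ) (s ε : ℝ) (hs : 0 < s) (hε : 0 < ε) :
    ∃ E₀ : ℝ, ∀ E : ℝ, E₀ ≤ E → ∀ H Λ : ℝ, ∃ (u : ℝ → V → V) (p : V → ℝ),
      ContDiff ℝ ∞ (fun z : ℝ × V => u z.1 z.2) ∧ ContDiff ℝ ∞ p ∧
      IsClassicalSolution univ u (fun _ => p) ∧
      SameModes K (u 0) u₀ ∧ HNegClose s ε (u 0) u₀ ∧ energy (u 0) = E ∧ helicity (u 0) = H ∧
      (∀ t : ℝ, ∃ x : V, Λ * |t| ≤ ‖curl (u t) x‖) ∧
      (∀ (T : ℝ) (w : ℝ → V → V) (q : ℝ → V → ℝ), IsClassicalSolution (Ico 0 T) w q →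
        ∀ t₀ ∈ Ico 0 T, w t₀ = u t₀ → ∀ t ∈ Ico 0 T, w t = u t) :=
  Pool.Agent.R739.ET.main_growth u₀ hper hL2 hdiv K s ε hs hε

end Pool.Agent.Results.MP_b0497c_an.VorticityGrowthModes
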